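import Pool.Agent.W757.BL.Fin2

/-!
# Stretched billiard tables

Let `Ω` be a strictly convex table with real analytic boundary which is not an ellipse, and let
`Ω_t` (`t > 0`) be its image under the linear map `(x, y) ↦ (t x, y)`. For every `n ≥ 2` there are
only finitely many `t` for which the billiard in `Ω_t` has an invariant circle all of whose
trajectories close up after `n` bounces and one turn (more generally, for which the greatest
perimeter of the `n`-gons is attained by an `n`-gon through every boundary point). For all `t > 0`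
except countably many the table `Ω_t` has no collar of convex caustics: the local Birkhoff
conjecture (integrability of the billiard map near the boundary) holds for them.

All definitions are in `Pool.Agent.W757.BL.Defs` and `Pool.Agent.H719R3.BG.Defs`.
-/

set_option autoImplicit false

namespace Pool.Agent.Results.MP_85545d_an.StretchedTables

open Set Filter Topology
open Pool.Agent.H719R3.BG Pool.Agent.W757.BL

theorem result {x y x' y' : ℝ → ℝ} {L : ℝ} {Ω : Set ℂ}
    (h : Cv x y x' y' L) (hx : AnalyticOnNhd ℝ x univ) (hy : AnalyticOnNhd ℝ y univ)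
    (hΩ : IsOpen Ω) (hc : Convex ℝ Ω) (hb : Bornology.IsBounded Ω) (hne : Ω.Nonempty)
    (hfr : range (pt x y) = frontier Ω) (hE : ¬ IsEllipse (frontier Ω)) :
    (∀ n : ℕ, 2 ≤ n →
      {t : ℝ | 0 < t ∧ ∃ m, Cst (fun s => t * x s) y L n m}.Finite ∧
      {t : ℝ | 0 < t ∧ ∃ f, Inv (fun s => t * x s) y (fun s => t * x' s) y' L f ∧
        ∀ s, f^[n] s = s + L}.Finite) ∧
    {t : ℝ | 0 < t ∧ ∃ (𝒦 : Set (Set ℂ)) (U : Set ℂ),
      CausticCollar (stretch t '' Ω) 𝒦 U}.Countable := by
  refine ⟨fun n hn => ?_, cnt h hx hy hΩ hc hb hne hfr hE⟩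
  obtain ⟨N, rfl⟩ : ∃ N, n = N + 1 := ⟨n - 1, by omega⟩
  have hE' : ¬ IsEllipse (range fun s : ℝ => (⟨x s, y s⟩ : ℂ)) := by
    have : (range fun s : ℝ => (⟨x s, y s⟩ : ℂ)) = frontier Ω := hfr
    rwa [this]
  have hfin := fin h hx hy hE' N (by omega)
  refine ⟨hfin, hfin.subset ?_⟩
  rintro t ⟨ht, f, hf, hp⟩
  exact ⟨ht, inv_cst (cv_stretch h ht) hf (by omega) hp⟩

end Pool.Agent.Results.MP_85545d_an.StretchedTables
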